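import Pool.Agent.helper52.T1.SpecS

/-!
# MP_07c750, project T1, row SCR: the Schur test
-/

set_option autoImplicit false

open scoped MatrixGroups ContDiff Topology UpperHalfPlane ComplexConjugate
open UpperHalfPlane MeasureTheory Filter Set

namespace Pool.Agent.T1

open Pool.Agent.RS Pool.Agent.MS Pool.Agent.HV

noncomputable section

theorem SCR_add (x y : ℝ) : e1 (x + y) = e1 x * e1 y := by
  unfold e1
  rw [← Complex.exp_add]
  congr 1
  push_cast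
  ring

theorem SCR_conj (x : ℝ) : (starRingEnd ℂ) (e1 x) = e1 (-x) := by
  unfold e1
  rw [← Complex.exp_conj, map_mul, Complex.conj_ofReal, Complex.conj_I]
  congr 1
  push_cast
  ring

theorem SCR_norm (x : ℝ) : ‖e1 x‖ = 1 := by
  unfold e1
  exact Complex.norm_exp_ofReal_mul_I _

theorem SCR_cont (j : ℕ) : Continuous fun x : ℝ => e1 ((j : ℝ) * x) := by
  unfold e1
  fun_prop

/-- the row sums -/
theorem SCR_row (J : Finset ℕ) (U : Finset ℤ) (v : ℤ → ℝ) (H D S : ℝ) (hS : 0 ≤ S)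
    (hD : ∀ j ∈ J, ∀ T : Finset ℕ, T ⊆ J → (∀ j' ∈ T, |(j : ℝ) - j'| < H) → (T.card : ℝ) ≤ D)
    (hs : ∀ j ∈ J, ∀ j' ∈ J, H ≤ |(j : ℝ) - j'| → ‖∑ κ ∈ U, e1 (((j : ℝ) - j') * v κ)‖ ≤ S) (j : ℕ) (hj : j ∈ J) :
    ∑ j' ∈ J, ‖∑ κ ∈ U, e1 (((j : ℝ) - j') * v κ)‖ ≤ U.card * D + J.card * S := by
  classical
  have h0 : ∀ j' : ℕ, ‖∑ κ ∈ U, e1 (((j : ℝ) - j') * v κ)‖ ≤ U.card := by
    intro j'
    refine (norm_sum_le _ _).trans ?_
    simp [SCR_norm]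
  rw [← Finset.sum_filter_add_sum_filter_not J (fun j' : ℕ => |(j : ℝ) - j'| < H)]
  refine add_le_add ?_ ?_
  · refine (Finset.sum_le_sum fun j' _ => h0 j').trans ?_
    rw [Finset.sum_const, nsmul_eq_mul, mul_comm]
    refine mul_le_mul_of_nonneg_left ?_ (Nat.cast_nonneg _)
    exact hD j hj _ (Finset.filter_subset _ _) fun j' hj' => (Finset.mem_filter.1 hj').2
  · refine (Finset.sum_le_sum (g := fun _ => S) fun j' hj' => ?_).trans ?_
    · exact hs j hj j' (Finset.mem_filter.1 hj').1 (not_lt.1 (Finset.mem_filter.1 hj').2)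
    · rw [Finset.sum_const, nsmul_eq_mul]
      exact mul_le_mul_of_nonneg_right (Nat.cast_le.2 (Finset.card_filter_le _ _)) hS

theorem SCR_symm (U : Finset ℤ) (v : ℤ → ℝ) (θ : ℝ) : ‖∑ κ ∈ U, e1 (-θ * v κ)‖ = ‖∑ κ ∈ U, e1 (θ * v κ)‖ := by
  rw [← Complex.norm_conj (∑ κ ∈ U, e1 (θ * v κ)), map_sum]
  congr 1
  refine Finset.sum_congr rfl fun κ _ => ?_
  rw [SCR_conj, neg_mul]

/-- the Schur test at a fixed shift -/
theorem SCR_pt (J : Finset ℕ) (U : Finset ℤ) (v : ℤ → ℝ) (H D S : ℝ) (hS : 0 ≤ S)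
    (hD : ∀ j ∈ J, ∀ T : Finset ℕ, T ⊆ J → (∀ j' ∈ T, |(j : ℝ) - j'| < H) → (T.card : ℝ) ≤ D)
    (hs : ∀ j ∈ J, ∀ j' ∈ J, H ≤ |(j : ℝ) - j'| → ‖∑ κ ∈ U, e1 (((j : ℝ) - j') * v κ)‖ ≤ S) (a : ℕ → ℂ) (s : ℝ) :
    ∑ κ ∈ U, ‖∑ j ∈ J, a j * e1 (j * (v κ + s))‖ ^ 2 ≤ (U.card * D + J.card * S) * ∑ j ∈ J, ‖a j‖ ^ 2 := by
  classical
  set R : ℝ := U.card * D + J.card * S with hR
  set t : ℕ → ℕ → ℝ := fun j j' => ‖∑ κ ∈ U, e1 (((j : ℝ) - j') * v κ)‖ with ht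
  have hrow : ∀ j ∈ J, ∑ j' ∈ J, t j j' ≤ R := fun j hj => SCR_row J U v H D S hS hD hs j hj
  have hsym : ∀ j j', t j j' = t j' j := by
    intro j j'
    have h1 := SCR_symm U v ((j : ℝ) - j')
    rw [neg_sub] at h1
    exact h1.symm
  have h1 : ((∑ κ ∈ U, ‖∑ j ∈ J, a j * e1 (j * (v κ + s))‖ ^ 2 : ℝ) : ℂ) =
      ∑ j ∈ J, ∑ j' ∈ J, (a j * (starRingEnd ℂ) (a j') * e1 (((j : ℝ) - j') * s)) * ∑ κ ∈ U, e1 (((j : ℝ) - j') * v κ) := by
    push_cast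
    calc ∑ κ ∈ U, ((‖∑ j ∈ J, a j * e1 (j * (v κ + s))‖ : ℝ) : ℂ) ^ 2
        = ∑ κ ∈ U, ∑ j ∈ J, ∑ j' ∈ J, (a j * (starRingEnd ℂ) (a j') * e1 (((j : ℝ) - j') * s)) * e1 (((j : ℝ) - j') * v κ) := by
          refine Finset.sum_congr rfl fun κ _ => ?_
          rw [← Complex.mul_conj', map_sum, Finset.sum_mul_sum]
          refine Finset.sum_congr rfl fun j _ => Finset.sum_congr rfl fun j' _ => ?_
          rw [map_mul, SCR_conj]
          have h2 : e1 ((j : ℝ) * (v κ + s)) * e1 (-((j' : ℝ) * (v κ + s))) = e1 (((j : ℝ) - j') * s) * e1 (((j : ℝ) - j') * v κ) := by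
            rw [← SCR_add, ← SCR_add]
            congr 1
            ring
          calc a j * e1 ((j : ℝ) * (v κ + s)) * ((starRingEnd ℂ) (a j') * e1 (-((j' : ℝ) * (v κ + s))))
              = a j * (starRingEnd ℂ) (a j') * (e1 ((j : ℝ) * (v κ + s)) * e1 (-((j' : ℝ) * (v κ + s)))) := by ring
            _ = _ := by rw [h2]; ring
      _ = _ := by
          rw [Finset.sum_comm]
          refine Finset.sum_congr rfl fun j _ => ?_
          rw [Finset.sum_comm]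
          refine Finset.sum_congr rfl fun j' _ => ?_
          rw [Finset.mul_sum]
  have h2 : ∑ κ ∈ U, ‖∑ j ∈ J, a j * e1 (j * (v κ + s))‖ ^ 2 ≤ ∑ j ∈ J, ∑ j' ∈ J, (‖a j‖ * ‖a j'‖) * t j j' := by
    have h3 : 0 ≤ ∑ κ ∈ U, ‖∑ j ∈ J, a j * e1 (j * (v κ + s))‖ ^ 2 := Finset.sum_nonneg fun _ _ => sq_nonneg _
    calc ∑ κ ∈ U, ‖∑ j ∈ J, a j * e1 (j * (v κ + s))‖ ^ 2
        = ‖((∑ κ ∈ U, ‖∑ j ∈ J, a j * e1 (j * (v κ + s))‖ ^ 2 : ℝ) : ℂ)‖ := by
          rw [Complex.norm_real, Real.norm_of_nonneg h3]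
      _ ≤ _ := by
          rw [h1]
          refine (norm_sum_le _ _).trans (Finset.sum_le_sum fun j _ => (norm_sum_le _ _).trans (Finset.sum_le_sum fun j' _ => ?_))
          rw [norm_mul, norm_mul, norm_mul, SCR_norm, mul_one, Complex.norm_conj]
  have h4 : ∑ j ∈ J, ∑ j' ∈ J, (‖a j‖ * ‖a j'‖) * t j j' ≤ ∑ j ∈ J, ∑ j' ∈ J, (‖a j‖ ^ 2 / 2 * t j j' + ‖a j'‖ ^ 2 / 2 * t j j') := by
    refine Finset.sum_le_sum fun j _ => Finset.sum_le_sum fun j' _ => ?_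
    have h5 : ‖a j‖ * ‖a j'‖ ≤ ‖a j‖ ^ 2 / 2 + ‖a j'‖ ^ 2 / 2 := by nlinarith [sq_nonneg (‖a j‖ - ‖a j'‖)]
    have h6 : 0 ≤ t j j' := norm_nonneg _
    calc ‖a j‖ * ‖a j'‖ * t j j' ≤ (‖a j‖ ^ 2 / 2 + ‖a j'‖ ^ 2 / 2) * t j j' := mul_le_mul_of_nonneg_right h5 h6
      _ = _ := by ring
  have h7 : ∑ j ∈ J, ∑ j' ∈ J, ‖a j‖ ^ 2 / 2 * t j j' ≤ ∑ j ∈ J, ‖a j‖ ^ 2 / 2 * R := by
    refine Finset.sum_le_sum fun j hj => ?_
    rw [← Finset.mul_sum]
    exact mul_le_mul_of_nonneg_left (hrow j hj) (by positivity)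
  have h8 : ∑ j ∈ J, ∑ j' ∈ J, ‖a j'‖ ^ 2 / 2 * t j j' ≤ ∑ j ∈ J, ‖a j‖ ^ 2 / 2 * R := by
    rw [Finset.sum_comm]
    refine (Finset.sum_le_sum fun j hj => ?_)
    rw [← Finset.mul_sum]
    refine mul_le_mul_of_nonneg_left ?_ (by positivity)
    have h9 : ∑ i ∈ J, t i j = ∑ j' ∈ J, t j j' := Finset.sum_congr rfl fun i _ => hsym i j
    rw [h9]
    exact hrow j hj
  refine h2.trans (h4.trans ?_)
  simp only [Finset.sum_add_distrib]
  refine (add_le_add h7 h8).trans (le_of_eq ?_)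
  rw [← Finset.sum_add_distrib, Finset.mul_sum]
  refine Finset.sum_congr rfl fun j _ => ?_
  ring

/-- the measure of a set covered by finitely many sets -/
theorem SCR_meas (A : Set ℝ) (U : Finset ℤ) (I : ℤ → Set ℝ) (h : A ⊆ ⋃ κ ∈ U, I κ) :
    (volume : Measure ℝ).restrict A ≤ ∑ κ ∈ U, (volume : Measure ℝ).restrict (I κ) := by
  classical
  refine (Measure.restrict_mono h le_rfl).trans ?_
  clear h
  induction U using Finset.induction_on with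
  | empty => simp
  | insert κ U hκ ih =>
    rw [Finset.set_biUnion_insert, Finset.sum_insert hκ]
    exact (Measure.restrict_union_le _ _).trans (add_le_add le_rfl ih)

theorem SCR_proof : SCR_stmt := by
  intro N Cs J U v H D S hN hD0 hS0 hCs hcov hD hs a
  have hN0 : (0 : ℝ) < N := by exact_mod_cast hN
  set δ : ℝ := 9 / N with hδ
  have hδ0 : 0 ≤ δ := by positivity
  set g : ℝ → ℝ := fun x => ‖∑ j ∈ J, a j * e1 (j * x)‖ ^ 2 with hg
  have hgc : Continuous g := by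
    refine (Continuous.norm ?_).pow 2
    exact continuous_finset_sum _ fun j _ => continuous_const.mul (SCR_cont j)
  have hg0 : ∀ x, 0 ≤ g x := fun x => sq_nonneg _
  have hsub : cel N Cs ⊆ ⋃ κ ∈ U, Ioc (v κ - δ) (v κ + δ) := by
    rintro x ⟨c, hc, h1, h2⟩
    obtain ⟨κ, hκ, h3⟩ := hcov c hc
    rw [abs_le] at h3
    have h4 : ((c : ℝ) + 1) / N = (c : ℝ) / N + 1 / N := add_div _ _ _
    have h5 : (9 : ℝ) / N = 8 / N + 1 / N := by rw [← add_div]; norm_num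
    have h6 : (0 : ℝ) < 1 / N := by positivity
    rw [h4] at h2
    refine Set.mem_biUnion hκ ⟨?_, ?_⟩
    · rw [hδ, h5]
      linarith [h3.1, h3.2]
    · rw [hδ, h5]
      linarith [h3.1, h3.2]
  have hint : ∀ κ ∈ U, Integrable g (volume.restrict (Ioc (v κ - δ) (v κ + δ))) := fun κ _ =>
    (hgc.integrableOn_Icc (a := v κ - δ) (b := v κ + δ)).mono_set Ioc_subset_Icc_self
  have h1 : ∫ x in cel N Cs, g x ≤ ∑ κ ∈ U, ∫ x in Ioc (v κ - δ) (v κ + δ), g x := by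
    rw [← integral_finset_sum_measure hint]
    exact integral_mono_measure (SCR_meas _ _ _ hsub) (Eventually.of_forall hg0) (integrable_finset_sum_measure.2 hint)
  have h2 : ∀ κ ∈ U, ∫ x in Ioc (v κ - δ) (v κ + δ), g x = ∫ s in (-δ)..δ, g (v κ + s) := by
    intro κ _
    rw [intervalIntegral.integral_comp_add_left (fun x => g x) (v κ), ← intervalIntegral.integral_of_le (by linarith)]
    rfl
  have h3 : ∑ κ ∈ U, ∫ x in Ioc (v κ - δ) (v κ + δ), g x = ∫ s in (-δ)..δ, ∑ κ ∈ U, g (v κ + s) := by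
    rw [Finset.sum_congr rfl h2, intervalIntegral.integral_finset_sum]
    intro κ _
    exact (hgc.comp (continuous_const.add continuous_id)).intervalIntegrable _ _
  have h4 : ∫ s in (-δ)..δ, ∑ κ ∈ U, g (v κ + s) ≤ ∫ _s in (-δ)..δ, (U.card * D + J.card * S) * ∑ j ∈ J, ‖a j‖ ^ 2 := by
    refine intervalIntegral.integral_mono_on (by linarith) ?_ intervalIntegrable_const ?_
    · refine Continuous.intervalIntegrable ?_ _ _
      exact continuous_finset_sum _ fun κ _ => hgc.comp (continuous_const.add continuous_id)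
    · intro s _
      exact SCR_pt J U v H D S hS0 hD hs a s
  refine (h1.trans (h3.le.trans h4)).trans (le_of_eq ?_)
  rw [intervalIntegral.integral_const, smul_eq_mul, hδ]
  ring

end

end Pool.Agent.T1
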